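import Mathlib
import Pool.Agent.H31.Spec6

set_option autoImplicit false
open Matrix Finset Polynomial Real Pool.Agent.H31.Spec
open scoped goldenRatio

namespace Pool.Agent.Results.MP_4bb7d7_co.Golden

theorem conj {s t : ℝ} (hs : s ^ 2 = s + 1) (ht : t ^ 2 = t + 1) (h : Irrational s) (p : ℤ[X])
    (p0 : p.map (Int.castRingHom ℝ) ≠ 0) : (p.map (Int.castRingHom ℝ)).rootMultiplicity s ≤
      (p.map (Int.castRingHom ℝ)).rootMultiplicity t := by
  have k : ∀ q : ℤ[X], ∃ a b : ℤ, ∀ x : ℝ, x ^ 2 = x + 1 →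
      (q.map (Int.castRingHom ℝ)).eval x = a + b * x := fun q => by
    induction q using Polynomial.recOnHorner with
    | M0 => exact ⟨0, 0, by simp⟩
    | MC q c _ _ ih =>
      obtain ⟨a, b, e⟩ := ih
      exact ⟨a + c, b, fun x hx => by simp [e x hx]; ring⟩
    | MX q _ ih =>
      obtain ⟨a, b, e⟩ := ih
      exact ⟨b, a + b, fun x hx => by simp [e x hx]; linear_combination b * hx⟩
  refine le_of_forall_lt fun m hm => ?_
  rw [lt_rootMultiplicity_iff_isRoot_iterate_derivative p0] at hm ⊢
  intro j hj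
  have := hm j hj
  rw [iterate_derivative_map, IsRoot] at this ⊢
  obtain ⟨a, b, e⟩ := k (derivative^[j] p)
  rw [e s hs] at this
  by_cases b0 : b = 0
  · simpa [e t ht, b0] using this
  · exact (((h.intCast_mul b0).intCast_add a).ne_zero this).elim

theorem bound {V : Type} [Fintype V] [DecidableEq V] (G : SimpleGraph V) [DecidableRel G.Adj] :
    ∃ r : ℕ, 2 * (G.adjMatrix ℝ).charpoly.rootMultiplicity φ + r = Fintype.card V ∧
      Fintype.card V ≤ 109 * r ^ 2 := by
  have hA := herm G
  have e : (G.adjMatrix ℝ).charpoly = (G.adjMatrix ℤ).charpoly.map (Int.castRingHom ℝ) := by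
    rw [adj_cast, RingHom.mapMatrix_apply, charpoly_map]
  have p0 := e ▸ (G.adjMatrix ℝ).charpoly_monic.ne_zero
  have m2 := le_antisymm (conj goldenConj_sq goldenRatio_sq goldenConj_irrational _ p0)
    (conj goldenRatio_sq goldenConj_sq goldenRatio_irrational _ p0)
  rw [← e, mult_eq hA, mult_eq hA] at m2
  rw [mult_eq hA]
  obtain ⟨U, u1, u2, u3⟩ := decomp hA
  generalize hA.eigenvalues = l at *
  have ne : φ ≠ ψ := (goldenConj_neg.trans goldenRatio_pos).ne'
  obtain ⟨I, hI⟩ : ∃ I : Finset V, I = univ.filter fun i => l i = φ ∨ l i = ψ := ⟨_, rfl⟩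
  have sI : ∀ f : ℝ → ℝ, ∑ i ∈ I, f (l i) = (univ.filter fun i => l i = φ).card * (f φ + f ψ) :=
    fun f => by
      rw [hI, filter_or, sum_union (disjoint_filter.mpr fun _ _ a b => ne (a.symm.trans b)),
        sum_congr rfl (g := fun _ => f φ) (by simp +contextual),
        sum_congr (s₁ := univ.filter fun i => l i = ψ) rfl (g := fun _ => f ψ)
          (by simp +contextual), sum_const, sum_const, m2]
      ring
  generalize (univ.filter fun i => l i = φ).card = m at *
  have c1 : 2 * m + Iᶜ.card = Fintype.card V := by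
    have := sI fun _ => 1
    simp only [sum_const, nsmul_eq_mul, mul_one] at this
    rw [← card_add_card_compl I]
    congr 1
    exact_mod_cast (by linarith : (2 : ℝ) * m = I.card)
  refine ⟨_, c1, ?_⟩
  obtain ⟨B, hB⟩ : ∃ B : V → V → ℝ, ∀ x y, B x y = ∑ i ∈ I, l i * U x i * U y i := ⟨_, fun _ _ => rfl⟩
  let N : Matrix V V ℝ := fun x y => B x y * (B x y + 1 - 2 * G.adjMatrix ℝ x y)
  have hN : N.IsHermitian := by
    ext x y
    have : B y x = B x y := by rw [hB, hB]; exact sum_congr rfl fun _ _ => by ring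
    simp [N, this, G.adj_comm]
  have rk : N.rank ≤ Iᶜ.card * (Iᶜ.card + 1) := by
    let P : Matrix V (↥Iᶜ × Option ↥Iᶜ) ℝ := fun x k => l k.1 * U x k.1 * k.2.elim (-1) fun j => l j * U x j
    let Q : Matrix (↥Iᶜ × Option ↥Iᶜ) V ℝ := fun k y => U y k.1 * k.2.elim 1 fun j => U y j
    have : N = P * Q := by
      ext x y
      have a := u1 x y
      rw [← sum_add_sum_compl I, ← hB, ← sum_coe_sort] at a
      have b : G.adjMatrix ℝ x y ^ 2 = G.adjMatrix ℝ x y := by simp
      have : (P * Q) x y = (∑ i : ↥Iᶜ, l i * U x i * U y i) ^ 2 - ∑ i : ↥Iᶜ, l i * U x i * U y i := by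
        simp only [mul_apply, Fintype.sum_prod_type, Fintype.sum_option, P, Q, Option.elim, sq,
          sum_mul_sum, ← sum_sub_distrib]
        refine sum_congr rfl fun i _ => ?_
        rw [sub_eq_neg_add]
        congr 1
        · ring
        · exact sum_congr rfl fun _ _ => by ring
      rw [this, ← sub_eq_iff_eq_add'.mpr a]
      simp only [N]
      linear_combination -b
    rw [this]
    simpa [card_compl] using (rank_mul_le_left P Q).trans (rank_le_card_width P)
  have row : ∀ x, ∑ y, B x y ^ 2 = ∑ i ∈ I, l i ^ 2 * (U x i * U x i) := fun x => by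
    simp only [hB, sq, sum_mul_sum]
    rw [sum_comm]
    refine sum_congr rfl fun i hi => ?_
    rw [sum_comm, sum_congr rfl (g := fun j => l i * U x i * (l j * U x j) * ∑ y, U y i * U y j)
      fun j _ => by rw [mul_sum]; exact sum_congr rfl fun _ _ => by ring]
    simp [u3, hi]; ring
  have b2 : ∀ x y, B x y ^ 2 ≤ 2 ^ 2 := fun x y => by
    refine (single_le_sum (f := fun y => B x y ^ 2) (fun _ _ => sq_nonneg _) (mem_univ y)).trans ?_
    rw [row]
    calc _ ≤ ∑ i ∈ I, 4 * (U x i * U x i) := sum_le_sum fun i hi =>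
          mul_le_mul_of_nonneg_right (by
            have := goldenRatio_lt_two
            have := goldenConj_neg
            rcases (mem_filter.mp (hI ▸ hi)).2 with h | h <;> simp [h] <;> linarith)
            (mul_self_nonneg _)
      _ ≤ ∑ i, 4 * (U x i * U x i) := sum_le_sum_of_subset_of_nonneg (subset_univ _) fun _ _ _ =>
          mul_nonneg (by norm_num) (mul_self_nonneg _)
      _ = _ := by rw [← mul_sum, u2]; norm_num
  have fr : ∑ x, ∑ y, N x y ^ 2 ≤ 27 * m := by
    have : ∑ x, ∑ y, B x y ^ 2 = 3 * m := by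
      simp only [row]
      rw [sum_comm]
      simp only [← mul_sum, u3, if_true, mul_one]
      rw [sI (· ^ 2), goldenRatio_sq, goldenConj_sq]
      linear_combination m * goldenRatio_add_goldenConj
    calc _ ≤ ∑ x, ∑ y, 9 * B x y ^ 2 := sum_le_sum fun x _ => sum_le_sum fun y _ => by
          have := abs_le.mp (abs_le_of_sq_le_sq (b2 x y) (by norm_num))
          simp only [N, mul_pow, mul_comm (9 : ℝ)]
          refine mul_le_mul_of_nonneg_left ?_ (sq_nonneg _)
          rw [SimpleGraph.adjMatrix_apply]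
          split_ifs <;> nlinarith
      _ = _ := by simp only [← mul_sum, this]; ring
  have tr : (m : ℝ) ≤ N.trace := by
    have : ∑ x, B x x = m := by
      simp only [hB, mul_assoc]
      rw [sum_comm]
      simp only [← mul_sum, u3, if_true, mul_one]
      rw [sI fun x => x, goldenRatio_add_goldenConj, mul_one]
    rw [← this]
    exact sum_le_sum fun x _ => by simp only [N, Matrix.diag]; simp; nlinarith [sq_nonneg (B x x)]
  have k := (pow_le_pow_left₀ (by positivity) tr 2).trans ((tr_sq_le hN).trans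
    (mul_le_mul (Nat.cast_le.mpr rk) fr (by positivity) (by positivity)))
  norm_cast at k
  generalize Iᶜ.card = r at *
  rw [← c1]
  rcases m.eq_zero_or_pos with rfl | h
  · nlinarith
  · have : m ≤ r * (r + 1) * 27 := le_of_mul_le_mul_right (by nlinarith) h
    have : r ≤ r ^ 2 := Nat.le_self_pow two_ne_zero r
    nlinarith

theorem result : ∃ l : ℝ, IsIntegral ℤ l ∧ (minpoly ℚ l).natDegree = 2 ∧
    (∃ (k : ℕ) (H : SimpleGraph (Fin k)) (_ : DecidableRel H.Adj), l ∈ spectrum ℝ (H.adjMatrix ℝ)) ∧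
    ∃ c : ℝ, 0 < c ∧ ∀ (n : ℕ) (G : SimpleGraph (Fin n)) [DecidableRel G.Adj],
      ((G.adjMatrix ℝ).charpoly.rootMultiplicity l : ℝ) ≤ n / 2 - c * √n := by
  have i : IsIntegral ℤ φ := ⟨X ^ 2 - X - 1, by monicity!, by simp⟩
  refine ⟨φ, i, le_antisymm ?_ ?_, ⟨4, .fromRel fun a b => a.1 + 1 = b.1, fun _ _ => by
    simp only [SimpleGraph.fromRel_adj]; infer_instance, mem_spec ![1, φ, φ, 1] (by simp) ?_⟩,
    1 / 22, by norm_num, fun n G _ => ?_⟩
  · exact natDegree_le_of_degree_le ((minpoly.min ℚ φ (p := X ^ 2 - X - 1) (by monicity!)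
      (by simp)).trans (by compute_degree!))
  · exact (minpoly.two_le_natDegree_iff i.tower_top).mpr goldenRatio_irrational
  · ext i
    fin_cases i <;> simp [mulVec, dotProduct, Fin.sum_univ_four, ← sq, add_comm]
  · obtain ⟨r, h1, h2⟩ := bound G
    rw [Fintype.card_fin] at h1 h2
    have : √n ≤ 11 * r := sqrt_le_iff.mpr ⟨by positivity, by
      exact_mod_cast (by nlinarith : n ≤ (11 * r) ^ 2)⟩
    have h3 := congrArg (Nat.cast : ℕ → ℝ) h1
    push_cast at h3
    linarith

end Pool.Agent.Results.MP_4bb7d7_co.Golden
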